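import Pool.Agent.Lib.MP_a221bc_esop.Member

/-!
The minimum circuit size problem is NP-complete (unconditionally, under polynomial-time many-one
reductions) for depth-two circuits with one XOR gate over ANDs of literals: given the truth table
of a Boolean function `f : {0,1}^n → {0,1}` and a number `s` in binary, it is NP-complete to decide
whether `f` is the XOR of at most `s` ANDs of literals.
-/

namespace Pool.Agent.Results.MP_a221bc_lc.ExclusiveSumOfProducts

open Pool.Agent.Lib.EsopHard

theorem result : NPComplete ESOPLanguage := esop_complete

end Pool.Agent.Results.MP_a221bc_lc.ExclusiveSumOfProducts
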