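import Pool.Agent.Lib.MP_a221bc_thr.Member

/-!
The minimum circuit size problem is NP-complete (unconditionally, under polynomial-time many-one
reductions) for depth-two threshold circuits with one AND gate over threshold gates (intersections
of halfspaces): given the truth table of a Boolean function `f : {0,1}^n → {0,1}` and a number `s`
in binary, it is NP-complete to decide whether `f` is the AND of at most `s` threshold gates, with
arbitrary integer weights (`W = ⊤`) or with integer weights of absolute value at most `W`, for any
fixed `W ≥ 2`.
-/

namespace Pool.Agent.Results.MP_a221bc_lc.HalfspaceIntersections

open Pool.Agent.Lib.EsopHard Pool.Agent.Lib.ThrHard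

theorem result (W : ℕ∞) (hW : 2 ≤ W) : NPComplete (ThrMCSPLanguage W) := thr_complete hW

end Pool.Agent.Results.MP_a221bc_lc.HalfspaceIntersections
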