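import Pool.Agent.Lib.MP_a221bc_loc.RandAsym

/-!
Parity, hence NP, has no many-one (or disjunctive truth-table) reduction to MCSP whose output bits
are computed by query circuits with `S` gates and `k` queries, unless `S k` is nearly linear in the
input length; the same for randomized reductions which probe few bits to choose the instances.
-/

namespace Pool.Agent.Results.MP_a221bc_lc.NoLocalReductions

open Pool.Agent.Lib.LocMCSP

theorem result :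
    -- deterministic reductions: the inequality
    (∀ (n q J R S k : ℕ) (t : Tree), 1 ≤ k → q < n → t.depth ≤ q → t.Ok J R S k → Reduces n t →
      2 ^ (n - q) ≤ (2 * (J * (2 * (R + S + 1)) ^ (2 * S + 3))) ^ (4 * k)) ∧
    -- deterministic reductions: the asymptotic form
    (∀ (δ κ : ℝ) (C : ℕ), 0 ≤ δ → 0 ≤ κ → δ + κ < 1 → ∃ n₀ : ℕ, ∀ n ≥ n₀,
      ∀ (q J R S k : ℕ) (t : Tree), 2 * q ≤ n → J ≤ n ^ C → R ≤ n ^ C → (S : ℝ) ≤ (n : ℝ) ^ δ →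
        (k : ℝ) ≤ (n : ℝ) ^ κ → t.depth ≤ q → t.Ok J R S k → ¬ Reduces n t) ∧
    -- randomized reductions
    ∀ (σ₀ σ₁ δ κ l : ℝ) (C : ℕ), 2 < 2 * σ₀ + σ₁ → 0 ≤ δ → 0 ≤ κ → 0 ≤ l → δ + κ + l < 1 →
      ∃ n₀ : ℕ, ∀ n ≥ n₀, ∀ (q J R S k : ℕ) (Ω : Type) [Fintype Ω] (p : Ω → ℝ) (t : Ω → Tree),
        (q : ℝ) ≤ (n : ℝ) ^ l → J ≤ n ^ C → R ≤ n ^ C → (S : ℝ) ≤ (n : ℝ) ^ δ →
        (k : ℝ) ≤ (n : ℝ) ^ κ → (∀ ω, (t ω).depth ≤ q ∧ (t ω).Ok J R S k) →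
        ¬ RandReduces n σ₀ σ₁ p t :=
  ⟨fun _ _ _ _ _ _ t hk hq hd ht hred => main hk hq t hd ht hred, asym, rand_asym⟩

end Pool.Agent.Results.MP_a221bc_lc.NoLocalReductions
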