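import Pool.Agent.Lib.MP_a221bc_multi.Member

/-!
The minimum circuit size problem for functions with several outputs is NP-complete under
(deterministic) polynomial-time many-one reductions: circuits over the basis `∧, ∨, ¬` with gates of
fan-in at most two, all gates counted. The number `k` of outputs may be restricted to `k ^ c ≤ 2 ^ n`
for any constant `c`, `n` being the number of variables.
-/

namespace Pool.Agent.Results.MP_a221bc_lc.SeveralOutputs

open Pool.Agent.Lib.EsopHard Pool.Agent.Lib.MultiMCSP

theorem result (c : ℕ) : NPComplete (MultiMCSPLanguage c) := multi_complete c

end Pool.Agent.Results.MP_a221bc_lc.SeveralOutputs
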